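import Pool.Agent.H78.S.Targets

/-!
Board sgt_modules (MP_9d0bb7_lc), row CAS: few indices or equal kernels.
-/

set_option autoImplicit false

open Set Pool.Agent.H77.BC Pool.Agent.H78.S
open scoped Pointwise

namespace Pool.Agent.H65.S

lemma cj_mul {Γ : Type} [Group Γ] (g h : Γ) (H : Subgroup Γ) :
    cj (g * h)⁻¹ H = cj g⁻¹ (cj h⁻¹ H) := by
  ext y
  rw [mem_cj, mem_cj, mem_cj]
  have e : (g * h)⁻¹ * y * (g * h)⁻¹⁻¹ = h⁻¹ * (g⁻¹ * y * g⁻¹⁻¹) * h⁻¹⁻¹ := by group
  rw [e]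

lemma cj_one' {Γ : Type} [Group Γ] (H : Subgroup Γ) : cj (1 : Γ)⁻¹ H = H := by
  ext y
  rw [mem_cj]
  simp

lemma cj_cancel {Γ : Type} [Group Γ] (g : Γ) (H : Subgroup Γ) : cj g⁻¹ (cj g⁻¹⁻¹ H) = H := by
  rw [← cj_mul, mul_inv_cancel, cj_one']

section frame

variable {M : Type} (U : RU M) {G S : Type} [Group G] [MulAction G S] [Cod M G]
  [Cod M S] {n : ℕ} (x : Fin (n + 2) → S)

/-- the points of a frame are different -/
lemma frm_inj (hHIJ : T_HIJ) (hF : Frm U G x) : Function.Injective x := by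
  intro a b hab
  by_contra hne
  obtain ⟨_, _, _, _, _, _, _, _, hbig, hfix, _⟩ := hHIJ U x hF a b hne
  obtain ⟨Y, hY, hYn, _, hs, hR⟩ := hbig
  have h1 : Y ⊆ {x a} := by
    intro y hy
    obtain ⟨t, ht, rfl⟩ := hs hy
    have h2 := hfix b (Ne.symm hne) t ht
    rw [← hab] at h2
    exact h2
  have h2 : U.R Y = 0 := ((l_RKA U).fin hY hYn).2 ((Set.finite_singleton (x a)).subset h1)
  rw [h2, hF.rk] at hR
  have := hF.pos
  omega

lemma pm_uniq (hHIJ : T_HIJ) (hF : Frm U G x) {g : G} {σ τ : Equiv.Perm (Fin (n + 2))}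
    (h1 : Pm x g σ) (h2 : Pm x g τ) : σ = τ := by
  refine Equiv.ext fun i => frm_inj U x hHIJ hF ?_
  rw [← h1 i, ← h2 i]

/-- conjugation of the kernels -/
lemma kk_image (hSYM : T_SYM) (hLCJ : T_LCJ) (hF : Frm U G x) {g : G}
    {σ : Equiv.Perm (Fin (n + 2))} (hg : Pm x g σ) (h0 : σ 0 = 0) {i : Fin (n + 2)}
    (hi : i ≠ 0) : KK U G x (σ i) = cj g⁻¹ '' KK U G x i := by
  have hginv : Pm x g⁻¹ σ⁻¹ := ((hSYM U x hF).1 g g σ σ hg hg).2
  have h0' : σ⁻¹ 0 = 0 := by
    rw [Equiv.Perm.inv_eq_iff_eq]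
    exact h0.symm
  have hσi : σ i ≠ 0 := fun h => hi (σ.injective (h.trans h0.symm))
  ext H
  constructor
  · rintro ⟨E, hE, rfl⟩
    obtain ⟨h1, h2, _⟩ := hLCJ U x hF g⁻¹ σ⁻¹ hginv h0' (σ i) hσi E hE
    have h3 : σ⁻¹ (σ i) = i := Equiv.symm_apply_apply σ i
    rw [h3] at h1
    refine ⟨kap (TT U G x 0) (mv g⁻¹ E), ⟨_, h1, rfl⟩, ?_⟩
    rw [h2, cj_cancel]
  · rintro ⟨_, ⟨E, hE, rfl⟩, rfl⟩
    obtain ⟨h1, h2, _⟩ := hLCJ U x hF g σ hg h0 i hi E hE
    exact ⟨mv g E, h1, h2⟩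

end frame

/-- a permutation which moves two given points to two given points -/
lemma exists_perm {n : ℕ} {l m a b : Fin (n + 2)} (hl : l ≠ 0) (hm : m ≠ 0) (ha : a ≠ 0)
    (hb : b ≠ 0) (hlm : l ≠ m) (hab : a ≠ b) :
    ∃ σ : Equiv.Perm (Fin (n + 2)), σ 0 = 0 ∧ σ l = a ∧ σ m = b := by
  have h1 : Equiv.swap l a m ≠ a := by
    intro h
    rw [Equiv.swap_apply_eq_iff, Equiv.swap_apply_right] at h
    exact hlm h.symm
  have h2 : Equiv.swap l a m ≠ 0 := by
    intro h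
    rw [Equiv.swap_apply_eq_iff, Equiv.swap_apply_of_ne_of_ne hl.symm ha.symm] at h
    exact hm h
  refine ⟨Equiv.swap (Equiv.swap l a m) b * Equiv.swap l a, ?_, ?_, ?_⟩
  · rw [Equiv.Perm.mul_apply, Equiv.swap_apply_of_ne_of_ne hl.symm ha.symm,
      Equiv.swap_apply_of_ne_of_ne h2.symm hb.symm]
  · rw [Equiv.Perm.mul_apply, Equiv.swap_apply_left, Equiv.swap_apply_of_ne_of_ne h1.symm hab]
  · rw [Equiv.Perm.mul_apply, Equiv.swap_apply_left]

/-- the points after the first `k + 1` -/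
def tailEquiv {n k : ℕ} (hk : k ≤ n) : Fin (n + 1 - k) ≃ {i : Fin (n + 2) // k < i.val} where
  toFun a := ⟨⟨a.val + k + 1, by omega⟩, by change k < a.val + k + 1; omega⟩
  invFun i := ⟨i.val.val - k - 1, by have := i.val.2; have := i.2; omega⟩
  left_inv a := by ext; simp; omega
  right_inv i := by
    have := i.2
    ext
    simp
    omega

/-- CAS: few indices or equal kernels -/
theorem pf_CAS (hP24 : T_P24) (hFGA : T_FGA) (hSYM : T_SYM) (hLCJ : T_LCJ) (hLFI : T_LFI)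
    (hHIC : T_HIC) (_hHIJ : T_HIJ) : T_CAS := by
  classical
  intro M U G S _ _ _ _ n x hF hI s k hs hk hfin hrk
  have := hF.dg
  have := hF.ful
  set T := TT U G x 0 with hT
  set J : Set (Fin (n + 2)) := {i | 1 ≤ i.val ∧ i.val ≤ k} with hJ
  have hJ0 : (0 : Fin (n + 2)) ∉ J := by
    rintro ⟨h, _⟩
    simp at h
  let ix : Fin k → Fin (n + 2) := fun a => ⟨a.val + 1, by omega⟩
  have hix0 : ∀ a, ix a ≠ 0 := fun a h => by
    have := congrArg Fin.val h
    simp [ix] at this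
  have hixJ : Set.range ix = J := by
    ext i
    constructor
    · rintro ⟨a, rfl⟩
      exact ⟨Nat.succ_pos _, a.2⟩
    · rintro ⟨h1, h2⟩
      exact ⟨⟨i.val - 1, by omega⟩, by ext; simp [ix]; omega⟩
  have hJc : J.ncard = k := by
    rw [← hixJ, ← Set.image_univ, Set.ncard_image_of_injective, Set.ncard_univ, Nat.card_fin]
    intro a b h
    have := congrArg Fin.val h
    simp only [ix] at this
    ext
    omega
  -- permutations of the other points
  let f := tailEquiv hk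
  let ext := Equiv.Perm.extendDomainHom f
  have hext : ∀ (τ : Equiv.Perm (Fin (n + 1 - k))) (i : Fin (n + 2)), i.val ≤ k →
      ext τ i = i := fun τ i hi =>
    Equiv.Perm.extendDomain_apply_not_subtype τ f (by omega)
  have hext0 : ∀ τ, ext τ 0 = 0 := fun τ => hext τ 0 (Nat.zero_le _)
  have hextJ : ∀ τ, ∀ i ∈ J, ext τ i = i := fun τ i hi => hext τ i hi.2
  let L : Subgroup (G × Equiv.Perm (Fin (n + 1 - k))) :=
    { carrier := {p | Pm x p.1 (ext p.2)}
      one_mem' := fun i => by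
        change (1 : G) • x i = x (ext 1 i)
        rw [map_one, one_smul]
        rfl
      mul_mem' := fun {p q} hp hq => by
        have h := ((hSYM U x hF).1 p.1 q.1 _ _ hp hq).1
        change Pm x (p.1 * q.1) (ext (p.2 * q.2))
        rw [map_mul]
        exact h
      inv_mem' := fun {p} hp => by
        have h := ((hSYM U x hF).1 p.1 p.1 _ _ hp hp).2
        change Pm x p.1⁻¹ (ext p.2⁻¹)
        rw [map_inv]
        exact h }
  let π : L →* Equiv.Perm (Fin (n + 1 - k)) := (MonoidHom.snd _ _).comp L.subtype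
  have hπ : Function.Surjective π := by
    intro τ
    obtain ⟨g, hg⟩ := (hSYM U x hF).2 (ext τ)
    exact ⟨⟨(g, τ), hg⟩, rfl⟩
  -- the action on the kernels
  have hact : ∀ (p : L) (a : Fin k) (H : Subgroup G), H ∈ KK U G x (ix a) →
      cj p.1.1⁻¹ H ∈ KK U G x (ix a) := by
    intro p a H hH
    have h := kk_image U x hSYM hLCJ hF (g := p.1.1) (σ := ext p.1.2) p.2 (hext0 _) (hix0 a)
    rw [hextJ _ _ (hixJ ▸ Set.mem_range_self a)] at h
    rw [h]
    exact ⟨H, hH, rfl⟩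
  have hKKc : ∀ a, Nat.card (KK U G x (ix a)) = s := by
    intro a
    obtain ⟨_, _, hinj⟩ := hLFI U hF.act _ _ _ _ _ (hHIC U x hF (ix a) (hix0 a)).1
    change (KK U G x (ix a)).ncard = s
    have hinj' : InjOn (kap (TT U G x 0)) (LL U G x (ix a)) := hinj
    rw [KK, Set.ncard_image_of_injOn hinj']
    exact (hfin _ (hix0 a)).2
  have hKKf : ∀ a, Finite (KK U G x (ix a)) := fun a =>
    Nat.finite_of_card_ne_zero (by rw [hKKc a]; omega)
  let eK : ∀ a, KK U G x (ix a) ≃ Fin s := fun a => Finite.equivFinOfCardEq (hKKc a)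
  let act : ∀ a, L →* Equiv.Perm (KK U G x (ix a)) := fun a =>
    { toFun := fun p =>
        { toFun := fun H => ⟨cj p.1.1⁻¹ H.1, hact p a H.1 H.2⟩
          invFun := fun H => ⟨cj (p⁻¹).1.1⁻¹ H.1, hact p⁻¹ a H.1 H.2⟩
          left_inv := fun H => by
            refine Subtype.ext ?_
            change cj (p.1.1⁻¹)⁻¹ (cj p.1.1⁻¹ H.1) = H.1
            rw [← cj_mul, inv_mul_cancel, cj_one']
          right_inv := fun H => by
            refine Subtype.ext ?_
            change cj p.1.1⁻¹ (cj (p.1.1⁻¹)⁻¹ H.1) = H.1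
            rw [← cj_mul, mul_inv_cancel, cj_one'] }
      map_one' := by
        ext1 H
        refine Subtype.ext ?_
        exact cj_one' H.1
      map_mul' := fun p q => by
        ext1 H
        refine Subtype.ext ?_
        exact cj_mul p.1.1 q.1.1 H.1 }
  let ι : L →* (Fin k → Equiv.Perm (Fin s)) := MonoidHom.pi fun a =>
    ((eK a).permCongrHom.toMonoidHom).comp (act a)
  by_cases hker : ι.ker ≤ π.ker
  · left
    have := hFGA k s (n + 1 - k) L ι π hs hπ hker
    omega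
  · right
    rw [SetLike.not_le_iff_exists] at hker
    obtain ⟨p, hp1, hp2⟩ := hker
    rw [MonoidHom.mem_ker] at hp1 hp2
    have hne : ext p.1.2 ≠ 1 := fun h => hp2 (Equiv.Perm.extendDomainHom_injective f (by
      change ext p.1.2 = ext 1
      rw [h, map_one]))
    have hcj : ∀ i ∈ J, ∀ E ∈ LL U G x i, cj p.1.1⁻¹ (kap T E) = kap T E := by
      intro i hi E hE
      rw [← hixJ] at hi
      obtain ⟨a, rfl⟩ := hi
      have h1 : ι p a = 1 := by rw [hp1]; rfl
      have h2 : act a p = 1 := by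
        have h3 : (eK a).permCongrHom (act a p) = 1 := h1
        exact (MulEquiv.map_eq_one_iff (eK a).permCongrHom).1 h3
      have h4 := DFunLike.congr_fun h2 ⟨kap T E, E, hE, rfl⟩
      exact congrArg Subtype.val h4
    have hall := hP24 U x hF hI J hJ0 (hrk J hJ0 hJc) p.1.1 (ext p.1.2) p.2 (hext0 _)
      (hextJ _) hcj
    obtain ⟨l, hl⟩ : ∃ l, ext p.1.2 l ≠ l := by
      by_contra hno
      push Not at hno
      exact hne (Equiv.ext hno)
    have hl0 : l ≠ 0 := by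
      rintro rfl
      exact hl (hext0 _)
    have hm0 : ext p.1.2 l ≠ 0 := fun h =>
      hl0 ((ext p.1.2).injective (h.trans (hext0 _).symm))
    have hKlm : KK U G x (ext p.1.2 l) = KK U G x l := by
      rw [kk_image U x hSYM hLCJ hF p.2 (hext0 _) hl0]
      ext H
      constructor
      · rintro ⟨_, ⟨E, hE, rfl⟩, rfl⟩
        rw [hall l hl0 E hE]
        exact ⟨E, hE, rfl⟩
      · rintro ⟨E, hE, rfl⟩
        exact ⟨_, ⟨E, hE, rfl⟩, hall l hl0 E hE⟩
    intro a ha b hb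
    by_cases hab : a = b
    · rw [hab]
    · obtain ⟨σ, hσ0, hσ1, hσ2⟩ := exists_perm hl0 hm0 ha hb (Ne.symm hl) hab
      obtain ⟨h, hh⟩ := (hSYM U x hF).2 σ
      have e1 := kk_image U x hSYM hLCJ hF hh hσ0 hl0
      have e2 := kk_image U x hSYM hLCJ hF hh hσ0 hm0
      rw [hσ1] at e1
      rw [hσ2, hKlm] at e2
      rw [e1, e2]

end Pool.Agent.H65.S
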