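import Pool.Agent.H78.S.Targets

/-!
Board sgt_modules (MP_9d0bb7_lc), rows IRI and IRP: images and products of irreducible sets.
-/

set_option autoImplicit false

open Set Pool.Agent.H77.BC Pool.Agent.H78.S
open scoped Pointwise

namespace Pool.Agent.H65.S

/-- the preimage in `A` of a subset of the image -/
lemma rank_pre {M : Type} (U : RU M) {α β : Type} [Cod M α] [Cod M β] [Ful U α] [Ful U β]
    {A : Set α} {f : α → β} {m : ℕ} (hA : U.D A) (hf : DFn U f)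
    (hm : ∀ b ∈ f '' A, U.R {a | a ∈ A ∧ f a = b} = m) {Y : Set β} (hY : U.D Y)
    (hne : Y.Nonempty) (hs : Y ⊆ f '' A) : U.D {a | a ∈ A ∧ f a ∈ Y} ∧
      {a | a ∈ A ∧ f a ∈ Y}.Nonempty ∧ U.R {a | a ∈ A ∧ f a ∈ Y} = U.R Y + m := by
  have hD : U.D {a | a ∈ A ∧ f a ∈ Y} := D_and hA (DFn_preim hf hY)
  have himg : f '' {a | a ∈ A ∧ f a ∈ Y} = Y := by
    ext b
    constructor
    · rintro ⟨a, ⟨_, h⟩, rfl⟩
      exact h
    · intro hb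
      obtain ⟨a, ha, rfl⟩ := hs hb
      exact ⟨a, ⟨ha, hb⟩, rfl⟩
  have hne' : {a | a ∈ A ∧ f a ∈ Y}.Nonempty := by
    rw [← image_nonempty, himg]
    exact hne
  refine ⟨hD, hne', ?_⟩
  have h := (l_RKB U).fib_eq (n := m) hD hf hne' (by
    rw [himg]
    intro b hb
    rw [← hm b (hs hb)]
    congr 1
    ext a
    constructor
    · rintro ⟨⟨h1, _⟩, h2⟩
      exact ⟨h1, h2⟩
    · rintro ⟨h1, h2⟩
      exact ⟨⟨h1, by rw [h2]; exact hb⟩, h2⟩)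
  rw [himg] at h
  exact h

/-- IRI: images of irreducible sets, fibres of constant rank -/
theorem pf_IRI (_hBGA : T_BGA) : T_IRI := by
  intro M U α β _ _ _ _ A f m hA hf hm
  have hD : U.D (f '' A) := DFn_image hf hA.1
  have hne : (f '' A).Nonempty := hA.2.1.image f
  have hRA : U.R A = U.R (f '' A) + m := by
    have h := (rank_pre U hA.1 hf hm hD hne Subset.rfl).2.2
    rw [← h]
    congr 1
    ext a
    exact ⟨fun h => ⟨h, mem_image_of_mem f h⟩, fun h => h.1⟩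
  have h3 : ∀ Y : Set β, Big U (f '' A) Y → Big U A {a | f a ∈ Y} := by
    rintro Y ⟨Y1, hY1, hne1, hs1, hs2, hR⟩
    obtain ⟨h1, h2, h3⟩ := rank_pre U hA.1 hf hm hY1 hne1 hs1
    refine ⟨_, h1, h2, fun a ha => ha.1, fun a ha => hs2 ha.2, ?_⟩
    rw [h3, hRA]
    omega
  refine ⟨⟨hD, hne, fun X Y hX hY => ?_⟩, ?_, h3⟩
  · obtain ⟨a, h1, h2⟩ := hA.2.2 _ _ (h3 X hX) (h3 Y hY)
    exact ⟨f a, h1, h2⟩
  · rintro X ⟨Y1, hY1, hne1, hs1, hs2, hR⟩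
    have hD1 : U.D (f '' Y1) := DFn_image hf hY1
    have hs' : f '' Y1 ⊆ f '' A := image_mono hs1
    obtain ⟨g1, g2, g3⟩ := rank_pre U hA.1 hf hm hD1 (hne1.image f) hs'
    refine ⟨f '' Y1, hD1, hne1.image f, hs', image_mono hs2, ?_⟩
    have h4 : U.R Y1 ≤ U.R {a | a ∈ A ∧ f a ∈ f '' Y1} :=
      (l_RKA U).mono hY1 g1 hne1 fun a ha => ⟨hs1 ha, mem_image_of_mem f ha⟩
    omega

section prod

variable {M : Type} (U : RU M) {α β : Type} [Cod M α] [Cod M β] [Ful U α] [Ful U β]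

lemma sec_D {Z : Set (α × β)} (hZ : U.D Z) (a : α) : U.D {b | (a, b) ∈ Z} :=
  DFn_preim (f := fun b : β => (a, b)) (DFn_pair (DFn_const a) DFn_id) hZ

/-- the sections of full rank of a definable subset of the product -/
lemma big_of_sec {A : Set α} {B : Set β} (hA : U.D A) (hAn : A.Nonempty) (hB : U.D B)
    (hBn : B.Nonempty) {Z : Set (α × β)} (hZ : U.D Z)
    (h : Big U A {a | Big U B {b | (a, b) ∈ Z}}) : Big U (A ×ˢ B) Z := by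
  obtain ⟨Y1, hY1, hne1, hs1, hs2, hR⟩ := h
  have hW : U.D (Z ∩ (Y1 ×ˢ B)) := D_inter hZ (D_prod hY1 hB)
  have hsec : ∀ a, (∃ b, (a, b) ∈ Z ∩ (Y1 ×ˢ B)) → U.R {b | (a, b) ∈ Z ∩ (Y1 ×ˢ B)} = U.R B := by
    rintro a ⟨b, hab, ha1, hb1⟩
    obtain ⟨V, hV, hVn, hVB, hVZ, hVR⟩ := hs2 ha1
    have hD := sec_D U hW a
    refine le_antisymm ?_ (hVR.trans ?_)
    · exact (l_RKA U).mono hD hB ⟨b, hab, ha1, hb1⟩ fun b' hb' => hb'.2.2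
    · exact (l_RKA U).mono hV hD hVn fun b' hb' => ⟨hVZ hb', ha1, hVB hb'⟩
  have hpr : {a | ∃ b, (a, b) ∈ Z ∩ (Y1 ×ˢ B)} = Y1 := by
    ext a
    constructor
    · rintro ⟨b, _, ha1, _⟩
      exact ha1
    · intro ha
      obtain ⟨V, hV, ⟨b, hb⟩, hVB, hVZ, hVR⟩ := hs2 ha
      exact ⟨b, hVZ hb, ha, hVB hb⟩
  have hne : (Z ∩ (Y1 ×ˢ B)).Nonempty := by
    obtain ⟨a, ha⟩ := hne1
    rw [← hpr] at ha
    obtain ⟨b, hb⟩ := ha
    exact ⟨(a, b), hb⟩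
  have hE := (l_RKB U).sec_eq hW hne hsec
  rw [hpr] at hE
  refine ⟨_, hW, hne, fun p hp => ⟨hs1 hp.2.1, hp.2.2⟩, fun p hp => hp.1, ?_⟩
  rw [hE, (l_RKB U).prod hA hB hAn hBn]
  omega

lemma sec_of_big {A : Set α} {B : Set β} (hA : U.D A) (hAn : A.Nonempty) (hB : U.D B)
    (hBn : B.Nonempty) {Z : Set (α × β)} (h : Big U (A ×ˢ B) Z) :
    Big U A {a | Big U B {b | (a, b) ∈ Z}} := by
  obtain ⟨Y1, hY1, hne1, hs1, hs2, hR⟩ := h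
  rw [(l_RKB U).prod hA hB hAn hBn] at hR
  have hE : U.D {a | (∃ b, (a, b) ∈ Y1) ∧ U.R {b | (a, b) ∈ Y1} = U.R B} :=
    (l_RKB U).sec_def (U.R B) hY1
  set E := {a | (∃ b, (a, b) ∈ Y1) ∧ U.R {b | (a, b) ∈ Y1} = U.R B} with hEdef
  have hEA : E ⊆ A := by
    rintro a ⟨⟨b, hb⟩, _⟩
    exact (hs1 hb).1
  have hEB : E ⊆ {a | Big U B {b | (a, b) ∈ Z}} := by
    rintro a ⟨hb, hR1⟩
    exact ⟨_, sec_D U hY1 a, hb, fun b' hb' => (hs1 hb').2, fun b' hb' => hs2 hb', hR1.ge⟩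
  by_contra hno
  have hsmall : E.Nonempty → U.R E < U.R A := by
    intro hn
    by_contra hge
    exact hno ⟨E, hE, hn, hEA, hEB, not_lt.1 hge⟩
  have hW1 : U.D (Y1 ∩ (E ×ˢ B)) := D_inter hY1 (D_prod hE hB)
  have hW2 : U.D (Y1 \ (E ×ˢ B)) := D_diff hY1 (D_prod hE hB)
  have hle1 : (Y1 ∩ (E ×ˢ B)).Nonempty → U.R (Y1 ∩ (E ×ˢ B)) < U.R A + U.R B := by
    rintro ⟨p, hp⟩
    have hEn : E.Nonempty := ⟨p.1, hp.2.1⟩
    have h1 := (l_RKA U).mono hW1 (D_prod hE hB) ⟨p, hp⟩ inter_subset_right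
    rw [(l_RKB U).prod hE hB hEn hBn] at h1
    have := hsmall hEn
    omega
  have hle2 : (Y1 \ (E ×ˢ B)).Nonempty → U.R (Y1 \ (E ×ˢ B)) < U.R A + U.R B := by
    rintro ⟨p, hp⟩
    have hlt : ∀ a, (∃ b, (a, b) ∈ Y1 \ (E ×ˢ B)) → U.R {b | (a, b) ∈ Y1 \ (E ×ˢ B)} < U.R B := by
      rintro a ⟨b, hb1, hb2⟩
      have haE : a ∉ E := fun h => hb2 ⟨h, (hs1 hb1).2⟩
      have h1 : U.R {b | (a, b) ∈ Y1 \ (E ×ˢ B)} ≤ U.R {b | (a, b) ∈ Y1} :=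
        (l_RKA U).mono (sec_D U hW2 a) (sec_D U hY1 a) ⟨b, hb1, hb2⟩ fun b' hb' => hb'.1
      have h2 : U.R {b | (a, b) ∈ Y1} ≤ U.R B :=
        (l_RKA U).mono (sec_D U hY1 a) hB ⟨b, hb1⟩ fun b' hb' => (hs1 hb').2
      have h3 : U.R {b | (a, b) ∈ Y1} ≠ U.R B := fun h => haE ⟨⟨b, hb1⟩, h⟩
      omega
    have hB1 := hlt p.1 ⟨p.2, hp⟩
    have h1 := (l_RKB U).sec_le (n := U.R B - 1) hW2 ⟨p, hp⟩ fun a ha => by
      have := hlt a ha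
      omega
    have h2 : U.R {a | ∃ b, (a, b) ∈ Y1 \ (E ×ˢ B)} ≤ U.R A :=
      (l_RKA U).mono (D_ex hW2) hA ⟨p.1, p.2, hp⟩ (by
        rintro a ⟨b, hb, _⟩
        exact (hs1 hb).1)
    omega
  have hun : Y1 = (Y1 ∩ (E ×ˢ B)) ∪ (Y1 \ (E ×ˢ B)) := (inter_union_diff Y1 (E ×ˢ B)).symm
  rcases (Y1 ∩ (E ×ˢ B)).eq_empty_or_nonempty with h0 | h1
  · rw [h0, empty_union] at hun
    rw [hun] at hR hne1
    have := hle2 hne1
    omega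
  · rcases (Y1 \ (E ×ˢ B)).eq_empty_or_nonempty with h0' | h1'
    · rw [h0', union_empty] at hun
      rw [hun] at hR
      have := hle1 h1
      omega
    · have h3 := (l_RKA U).union hW1 hW2 h1 h1'
      rw [← hun] at h3
      have h4 := hle1 h1
      have h5 := hle2 h1'
      omega

end prod

/-- IRP: products of irreducible sets -/
theorem pf_IRP (_hBGA : T_BGA) : T_IRP := by
  intro M U α β _ _ _ _ A B hA hB
  refine ⟨⟨D_prod hA.1 hB.1, hA.2.1.prod hB.2.1, fun X Y hX hY => ?_⟩, fun Z hZ =>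
    ⟨sec_of_big U hA.1 hA.2.1 hB.1 hB.2.1, big_of_sec U hA.1 hA.2.1 hB.1 hB.2.1 hZ⟩⟩
  obtain ⟨a, h1, h2⟩ := hA.2.2 _ _ (sec_of_big U hA.1 hA.2.1 hB.1 hB.2.1 hX)
    (sec_of_big U hA.1 hA.2.1 hB.1 hB.2.1 hY)
  obtain ⟨b, h3, h4⟩ := hB.2.2 _ _ h1 h2
  exact ⟨(a, b), h3, h4⟩

end Pool.Agent.H65.S
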