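import Pool.Agent.H78.S.Targets

/-!
Board sgt_modules (MP_9d0bb7_lc), row SHK: shared kernels.
-/

set_option autoImplicit false

open Set Pool.Agent.H77.BC Pool.Agent.H78.S
open scoped Pointwise

namespace Pool.Agent.H65.S

/-- conjugation as an order isomorphism -/
def cjo {Γ : Type} [Group Γ] (g : Γ) : Subgroup Γ ≃o Subgroup Γ :=
  MulEquiv.comapSubgroup (MulAut.conj g)

lemma cjo_apply {Γ : Type} [Group Γ] (g : Γ) (H : Subgroup Γ) : cjo g H = cj g H := rfl

lemma cj_inj {Γ : Type} [Group Γ] (g : Γ) {H L : Subgroup Γ} (h : cj g H = cj g L) : H = L :=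
  (cjo g).injective h

lemma cj_iSup₂ {Γ : Type} [Group Γ] (g : Γ) {κ : Type*} (s : Set κ) (f : κ → Subgroup Γ) :
    cj g (⨆ i ∈ s, f i) = ⨆ i ∈ s, cj g (f i) := by
  rw [← cjo_apply, OrderIso.map_iSup₂]
  rfl

/-- SHK: shared kernels -/
theorem pf_SHK (hDIC : T_DIC) (hTEK : T_TEK) (hLCJ : T_LCJ) : T_SHK := by
  intro M U G S _ _ _ _ n x hF hN ω hω i j hi hj hij
  by_contra hno
  push Not at hno
  have hLC := fun E hE => hLCJ U x hF (ω (Equiv.swap i j)) (Equiv.swap i j) (hω.pm _)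
    (Equiv.swap_apply_of_ne_of_ne hi.symm hj.symm) i hi E hE
  have h1 : ∀ E ∈ LL U G x i, ∃ E' ∈ LL U G x i,
      TE U G x i E' = cj (ω (Equiv.swap i j))⁻¹ (TE U G x i E) := by
    intro E hE
    rcases hDIC U x hF hN ω hω i j hi hj hij E hE with ⟨E', hE', h⟩ | h
    · exfalso
      obtain ⟨h2, h3, _⟩ := hLC E hE
      rw [Equiv.swap_apply_left] at h2
      exact hno E' hE' _ h2 (h.trans h3.symm)
    · exact h
  choose! π hπ1 hπ2 using h1
  obtain ⟨hT1, _, hT3, _⟩ := hTEK U x hF hN i hi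
  have := (hN.fin i hi).to_subtype
  let P : LL U G x i → LL U G x i := fun E => ⟨π E, hπ1 E E.2⟩
  have hinj : Function.Injective P := by
    intro E F h
    have h2 : π E = π F := congrArg Subtype.val h
    have h3 := hπ2 E E.2
    rw [h2, hπ2 F F.2] at h3
    exact Subtype.ext (hT3 E E.2 F F.2 (cj_inj _ h3).symm)
  have hsurj : Function.Surjective P := Finite.surjective_of_injective hinj
  obtain ⟨E, hE⟩ : (LL U G x i).Nonempty := by
    rw [← Set.ncard_pos (hN.fin i hi), hN.card i hi]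
    exact hF.pos
  have h4 := (hT1 E hE).2.2.2.2.2
  have h5 := (hT1 (π E) (hπ1 E hE)).2.2.2.2.2
  have h6 : kap (TT U G x 0) (π E) = cj (ω (Equiv.swap i j))⁻¹ (kap (TT U G x 0) E) := by
    rw [h4, h5, cj_iSup₂]
    refine le_antisymm ?_ ?_
    · refine iSup₂_le fun F' hF' => ?_
      obtain ⟨⟨F, hFL⟩, hPF⟩ := hsurj ⟨F', hF'.1⟩
      have h7 : π F = F' := congrArg Subtype.val hPF
      have h8 : F ∈ LL U G x i \ {E} := by
        refine ⟨hFL, fun h => hF'.2 ?_⟩
        rw [Set.mem_singleton_iff] at h ⊢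
        rw [← h7, h]
      rw [← h7, hπ2 F hFL]
      exact le_iSup₂_of_le F h8 le_rfl
    · refine iSup₂_le fun F hFL => ?_
      rw [← hπ2 F hFL.1]
      refine le_iSup₂_of_le (π F) ⟨hπ1 F hFL.1, fun h => hFL.2 ?_⟩ le_rfl
      have h9 : P ⟨F, hFL.1⟩ = P ⟨E, hE⟩ := Subtype.ext h
      exact congrArg Subtype.val (hinj h9)
  obtain ⟨h2, h3, _⟩ := hLC E hE
  rw [Equiv.swap_apply_left] at h2
  exact hno _ (hπ1 E hE) _ h2 (h6.trans h3.symm)

end Pool.Agent.H65.S
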