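import Pool.Agent.H78.S.Targets

/-!
Board sgt_modules (MP_9d0bb7_lc), rows SOL and IDX.
-/

set_option autoImplicit false

open Set Pool.Agent.H77.BC Pool.Agent.H78.S
open scoped Pointwise

namespace Pool.Agent.H65.S

/-- SOL: solvable groups from generic Ito -/
theorem pf_SOL : T_SOL := by
  intro Γ _ H V hVH hc hcomm
  have h1 : derivedSeries H 1 ≤ V.subgroupOf H := by
    rw [derivedSeries_one, commutator_def, Subgroup.commutator_le]
    intro g _ h _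
    rw [Subgroup.mem_subgroupOf]
    exact hcomm g g.2 h h.2
  refine ⟨⟨2, ?_⟩⟩
  rw [eq_bot_iff, derivedSeries_succ, Subgroup.commutator_le]
  intro g hg h hh
  have hg' := h1 hg
  have hh' := h1 hh
  rw [Subgroup.mem_subgroupOf] at hg' hh'
  rw [Subgroup.mem_bot, commutatorElement_eq_one_iff_mul_comm]
  exact Subtype.ext (hc g hg' h hh')

/-- IDX: rank and intersections in a group which is a product of two subgroups -/
theorem pf_IDX : T_IDX := by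
  intro M U Γ _ _ _ T A B hT hA hB hAT hBT hTAB
  have hmul : DFn U (fun p : Γ × Γ => p.1 * p.2) := DG.mul
  have hX : U.D ((A : Set Γ) ×ˢ (B : Set Γ)) := D_prod hA hB
  have hne : ((A : Set Γ) ×ˢ (B : Set Γ)).Nonempty := ⟨(1, 1), A.one_mem, B.one_mem⟩
  have himg : (fun p : Γ × Γ => p.1 * p.2) '' ((A : Set Γ) ×ˢ (B : Set Γ)) = (T : Set Γ) := by
    ext t
    constructor
    · rintro ⟨p, ⟨h1, h2⟩, rfl⟩
      exact T.mul_mem (hAT h1) (hBT h2)
    · intro ht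
      obtain ⟨a, ha, b, hb, rfl⟩ := hTAB t ht
      exact ⟨(a, b), ⟨ha, hb⟩, rfl⟩
  have hfib : ∀ t ∈ (fun p : Γ × Γ => p.1 * p.2) '' ((A : Set Γ) ×ˢ (B : Set Γ)),
      U.R {p : Γ × Γ | p ∈ (A : Set Γ) ×ˢ (B : Set Γ) ∧ p.1 * p.2 = t} =
        U.R ((A ⊓ B : Subgroup Γ) : Set Γ) := by
    rintro _ ⟨⟨a, b⟩, ⟨ha, hb⟩, rfl⟩
    have hf : DFn U (fun p : Γ × Γ => a⁻¹ * p.1) := DFn_gmul (DFn_const _) DFn_fst
    have hD : U.D {p : Γ × Γ | p ∈ (A : Set Γ) ×ˢ (B : Set Γ) ∧ p.1 * p.2 = a * b} :=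
      D_and hX (D_eqf hmul (DFn_const _))
    have e : (fun p : Γ × Γ => a⁻¹ * p.1) ''
        {p : Γ × Γ | p ∈ (A : Set Γ) ×ˢ (B : Set Γ) ∧ p.1 * p.2 = a * b} =
        ((A ⊓ B : Subgroup Γ) : Set Γ) := by
      ext c
      constructor
      · rintro ⟨⟨p, q⟩, ⟨⟨hp, hq⟩, h⟩, rfl⟩
        have h' : p * q = a * b := h
        have h2 : a⁻¹ * p = b * q⁻¹ := by
          rw [eq_mul_inv_iff_mul_eq, mul_assoc, h', inv_mul_cancel_left]
        refine ⟨A.mul_mem (A.inv_mem ha) hp, ?_⟩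
        change a⁻¹ * p ∈ B
        rw [h2]
        exact B.mul_mem hb (B.inv_mem hq)
      · rintro ⟨h1, h2⟩
        refine ⟨(a * c, c⁻¹ * b), ⟨⟨A.mul_mem ha h1, B.mul_mem (B.inv_mem h2) hb⟩, ?_⟩, ?_⟩
        · change a * c * (c⁻¹ * b) = a * b
          rw [mul_assoc, mul_inv_cancel_left]
        · change a⁻¹ * (a * c) = c
          rw [inv_mul_cancel_left]
    rw [← e]
    refine ((l_RKB U).inj hD hf ⟨(a, b), ⟨ha, hb⟩, rfl⟩ ?_).symm
    rintro ⟨p, q⟩ ⟨_, h1⟩ ⟨p', q'⟩ ⟨_, h2⟩ h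
    have h3 : p = p' := mul_left_cancel (h : a⁻¹ * p = a⁻¹ * p')
    have h1' : p * q = a * b := h1
    have h2' : p' * q' = a * b := h2
    rw [h3, ← h2'] at h1'
    rw [h3, mul_left_cancel h1']
  have h := (l_RKB U).fib_eq hX hmul hne hfib
  rw [himg, (l_RKB U).prod hA hB ⟨1, A.one_mem⟩ ⟨1, B.one_mem⟩] at h
  exact h

end Pool.Agent.H65.S
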